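import Mathlib

namespace Pool.Agent.Results.MP_75e066_al.Sixteen

structure Hypergroup (H : Type) where
  mul : H → H → Set H
  one : H
  star : H → H
  assoc : ∀ p q r, (⋃ x ∈ mul q r, mul p x) = ⋃ x ∈ mul p q, mul x r
  mul_one : ∀ s, mul s one = {s}
  rev : ∀ p q r, r ∈ mul p q → q ∈ mul (star p) r ∧ p ∈ mul r (star q)

namespace Hypergroup
variable {H : Type} (G : Hypergroup H)

/-- product of subsets -/
def prod (P Q : Set H) : Set H := {r | ∃ p ∈ P, ∃ q ∈ Q, r ∈ G.mul p q}

def Closed (F : Set H) : Prop := F.Nonempty ∧ G.prod (G.star '' F) F ⊆ F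

def NormalIn (F E : Set H) : Prop := ∀ h ∈ E, G.prod F {h} ⊆ G.prod {h} F

def StronglyNormalIn (F E : Set H) : Prop := ∀ h ∈ E, G.prod (G.prod {G.star h} F) {h} ⊆ F

/-- subnormal, through a chain whose steps are even strongly normal -/
def Subnormal (F : Set H) : Prop :=
  ∃ (n : ℕ) (c : ℕ → Set H), 1 ≤ n ∧ c 0 = F ∧ c n = Set.univ ∧ (∀ i ≤ n, G.Closed (c i)) ∧
    ∀ i < n, c i ⊆ c (i + 1) ∧ G.NormalIn (c i) (c (i + 1)) ∧ G.StronglyNormalIn (c i) (c (i + 1))

/-- the double coset -/
def dc (F : Set H) (h : H) : Set H := G.prod (G.prod F {h}) F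

/-- the product of the double cosets of `a` and `b` in the quotient -/
def qmul (F : Set H) (a b : H) : Set (Set H) := G.dc F '' G.prod (G.prod {a} F) {b}

/-- the upper central series -/
def Z : ℕ → Set H
  | 0 => {G.one}
  | n + 1 => {h | (∀ x, G.qmul (Z n) h x = G.qmul (Z n) x h) ∧
      G.qmul (Z n) (G.star h) h = {G.dc (Z n) G.one}}

end Hypergroup

def code : ℕ := 3059779741685950181006122265056682191401206942300717944799976641589136838993258504843125260913627715523828404793325054218623866640673261509114700132664443411295539705653154747865567544743970890965121297747333536970093361449978263780446248012144874498923182730585925787354709536035027421415855704418415670106748530511352697449511872517222684147529789381616859709363962557088146207899280787941372951288965621690699960402109935852414173630319209386002125819922921073669773573634022917060887751613130634594724152505017959164886931384487853965800868490422261880963282456306081354965355493303722291866152029479089630332622136543743887603476790170762464826571419598753284260335194127174070991019311407206248226603477073351806344725510832380381855037856133084619248257526469733036745935083862744572531902101831025853336519627789382097272112212635075762301041562216175911304890653820197551856564519529545720598669898384527302874254915755062844417917541800640010170711870139734392819659972245622783415534261241791455890111307270418901895565117977945648451335947220712878714308572327931549351784913295981217193317450834568232856271616361502189063768892865296556195417641215505827187776109836565193492821704881036898474381851834956852171505665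

def M (p q : Fin 16) : ℕ := code >>> (16 * (16 * p.val + q.val)) % 65536

def m (p q r : Fin 16) : Bool := (M p q).testBit r.val

def st (p : Fin 16) : Fin 16 := Fin.ofNat 16 (10986061794618520080 >>> (4 * p.val))

def orr (f : Fin 16 → ℕ) (S : ℕ) : List (Fin 16) → ℕ
  | [] => 0
  | x :: l => if S.testBit x.val then f x ||| orr f S l else orr f S l

lemma orr_iff (f : Fin 16 → ℕ) (S y : ℕ) (l : List (Fin 16)) :
    (orr f S l).testBit y = true ↔ ∃ x ∈ l, S.testBit x.val = true ∧ (f x).testBit y = true := by
  induction l with
  | nil => simp [orr]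
  | cons x l ih => by_cases h : S.testBit x.val = true <;> simp [orr, h, ih]

lemma a0 : ∀ p q r : Fin 16, orr (M p) (M q r) (List.finRange 16) =
    orr (fun x => M x r) (M p q) (List.finRange 16) := by decide +kernel

lemma a1 (p q r y : Fin 16) : (∃ x, m q r x = true ∧ m p x y = true) ↔
    ∃ x, m p q x = true ∧ m x r y = true := by
  have h1 := orr_iff (M p) (M q r) y (List.finRange 16)
  rw [a0, orr_iff] at h1
  simpa [m] using h1.symm

def G : Hypergroup (Fin 16) where
  mul p q := {r | m p q r = true}
  one := 0
  star := st
  assoc p q r := by ext y; simpa using a1 p q r y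
  mul_one s := by
    ext y; revert s y
    show ∀ s y : Fin 16, m s 0 y = true ↔ y = s
    decide +kernel
  rev := by
    show ∀ p q r : Fin 16, m p q r = true → m (st p) r q = true ∧ m r (st q) p = true
    decide +kernel

lemma mem (p q r) : r ∈ G.mul p q ↔ m p q r = true := Iff.rfl

def step (S : ℕ) : ℕ :=
  orr (fun p => orr (M (st p)) S (List.finRange 16)) S (List.finRange 16) ||| S

lemma step_sub {F : Set (Fin 16)} (hF : G.Closed F) {S : ℕ}
    (h : ∀ x : Fin 16, S.testBit x.val = true → x ∈ F) (r : Fin 16)
    (hr : (step S).testBit r.val = true) : r ∈ F := by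
  simp only [step, Nat.testBit_or, Bool.or_eq_true, orr_iff] at hr
  obtain ⟨p, -, hp, q, -, hq, e⟩ | e := hr
  · exact hF.2 ⟨_, ⟨p, h p hp, rfl⟩, q, h q hq, e⟩
  · exact h r e

lemma gen : ∀ h : Fin 16, 4 ≤ h.val → step (step (step (step (2 ^ h.val)))) = 2 ^ 16 - 1 := by
  decide +kernel

def V : Set (Fin 16) := {x | x.val < 4}

lemma cU : G.Closed Set.univ := ⟨⟨0, trivial⟩, fun _ _ => trivial⟩

lemma cV : G.Closed V := by
  refine ⟨⟨0, by simp [V]⟩, ?_⟩
  rintro r ⟨_, ⟨p, hp, rfl⟩, q, hq, e⟩
  revert p q r
  show ∀ r p : Fin 16, p.val < 4 → ∀ q : Fin 16, q.val < 4 → m (st p) q r = true → r.val < 4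
  decide +kernel

lemma one_prod (P : Set (Fin 16)) : G.prod {G.one} P = P := by
  have : ∀ q r : Fin 16, m 0 q r = true ↔ r = q := by decide +kernel
  ext r
  simp [Hypergroup.prod, G, this]

lemma prod_one (P : Set (Fin 16)) : G.prod P {G.one} = P := by
  ext r
  simp [Hypergroup.prod, G.mul_one]

lemma Z_eq (n : ℕ) : G.Z n = {G.one} := by
  induction n with
  | zero => rfl
  | succ n ih =>
    have hd : G.dc {G.one} = fun h => {h} := by
      funext h; rw [Hypergroup.dc, one_prod, prod_one]
    have hq : ∀ a b, G.qmul {G.one} a b = (fun h => {h}) '' G.mul a b := fun a b => by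
      rw [Hypergroup.qmul, hd, prod_one]
      congr 1
      ext r; simp [Hypergroup.prod]
    ext h
    simp only [Hypergroup.Z, ih, hq, hd, Set.mem_ofPred_eq, Set.mem_singleton_iff,
      ← Set.image_singleton (f := fun h : Fin 16 => ({h} : Set (Fin 16))),
      (Set.image_injective.2 Set.singleton_injective).eq_iff, Set.ext_iff, mem]
    revert h
    show ∀ h : Fin 16, ((∀ x r, m h x r = true ↔ m x h r = true) ∧
      ∀ r, m (st h) h r = true ↔ r = 0) ↔ h = 0
    decide +kernel

theorem result : ∃ (H : Type) (_ : Finite H) (G : Hypergroup H),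
    (∀ F, G.Closed F → G.Subnormal F) ∧ ∀ n, G.Z n ≠ Set.univ := by
  refine ⟨Fin 16, inferInstance, G, fun F hF => ?_, fun n h => ?_⟩
  · by_cases h : F ⊆ V
    · refine ⟨2, fun i => if i = 0 then F else if i = 1 then V else Set.univ, by norm_num, rfl, rfl,
        fun i _ => ?_, fun i hi => ?_⟩
      · dsimp only; split_ifs
        exacts [hF, cV, cU]
      · interval_cases i
        · refine ⟨h, ?_, ?_⟩
          · rintro x hx r ⟨f, hf, _, rfl, e⟩
            refine ⟨_, rfl, f, hf, ?_⟩
            have : ∀ f x r : Fin 16, f.val < 4 → x.val < 4 → m f x r = true → m x f r = true := by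
              decide +kernel
            exact this _ _ _ (h hf) hx e
          · rintro x hx r ⟨y, ⟨_, rfl, f, hf, e⟩, _, rfl, e'⟩
            have : ∀ f x : Fin 16, f.val < 4 → x.val < 4 → ∀ y r, m (st x) f y = true →
                m y x r = true → r = f := by decide +kernel
            exact this _ _ (h hf) hx _ _ e e' ▸ hf
        · refine ⟨fun _ _ => trivial, ?_, ?_⟩
          · rintro x - r ⟨f, hf, _, rfl, e⟩
            have : ∀ f x r : Fin 16, f.val < 4 → m f x r = true →
                ∃ g : Fin 16, g.val < 4 ∧ m x g r = true := by decide +kernel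
            obtain ⟨g, hg, e'⟩ := this _ _ _ hf e
            exact ⟨_, rfl, g, hg, e'⟩
          · rintro x - r ⟨y, ⟨_, rfl, f, hf, e⟩, _, rfl, e'⟩
            have : ∀ f : Fin 16, f.val < 4 → ∀ x y r, m (st x) f y = true →
                m y x r = true → r.val < 4 := by decide +kernel
            exact this _ hf _ _ _ e e'
    · obtain ⟨x, hx, hxV⟩ := Set.not_subset.1 h
      have hU : F = Set.univ := Set.eq_univ_of_forall fun r =>
        step_sub hF (step_sub hF (step_sub hF (step_sub hF (S := 2 ^ x.val) fun y hy => by
          rw [Nat.testBit_two_pow, decide_eq_true_eq] at hy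
          exact Fin.ext hy ▸ hx))) r
          (by rw [gen x (not_lt.1 hxV), Nat.testBit_two_pow_sub_one]; simp)
      subst hU
      refine ⟨1, fun _ => Set.univ, le_rfl, rfl, rfl, fun _ _ => cU, fun _ _ =>
        ⟨le_rfl, ?_, fun _ _ _ _ => trivial⟩⟩
      rintro x - r -
      have : ∀ x r : Fin 16, ∃ g, m x g r = true := by decide +kernel
      obtain ⟨g, e⟩ := this x r
      exact ⟨_, rfl, g, trivial, e⟩
  · have : (1 : Fin 16) ∈ G.Z n := h ▸ trivial
    rw [Z_eq] at this
    exact absurd this (by show ¬ (1 : Fin 16) = 0; decide)

end Pool.Agent.Results.MP_75e066_al.Sixteen
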